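import Pool.Agent.Helper56.BG.G9bAux
import Pool.Agent.Helper56.BG.B5
import Pool.Agent.Helper56.BG.B6
import Pool.Agent.Helper48.BG.B7

/-!
# A simply connected side has no base points
-/

set_option autoImplicit false
set_option linter.unusedSectionVars false

open Finset DirectSum

namespace Pool.Agent.Helper56.BG

open Pool.Agent.Helper766_CF Pool.Agent.Helper766_CG Pool.Agent.Helper766_CH
open Pool.Agent.Helper58.CS Pool.Agent.Helper58.OP Pool.Agent.Helper58.BG Pool.Agent.Helper58.SH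

variable {R : Type} [CommRing R] [Algebra ℂ R] {𝒜 : ℕ → Submodule ℂ R} [GradedAlgebra 𝒜]
  {br : R →ₗ[ℂ] R →ₗ[ℂ] R} {C : Core 𝒜 br} {𝒢m 𝒢p : ℝ → Submodule ℂ R} [GradedAlgebra 𝒢m]
  [GradedAlgebra 𝒢p] {h : R}

/-- The homogeneous components of the values of the elements of index zero. -/
lemma comp_genPt (S : Ts C 𝒢m 𝒢p h) {w : R →ₐ[ℂ] ℂ} {d : ℕ} {a : Fin d → 𝒢m 0}
    (F : Fr S.m w d a) {b : R} (hb : b ∈ 𝒢p 0) (k : ℕ) :
    MvPolynomial.homogeneousComponent (2 * k) (genPt S.m w a b) =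
      genPt S.m w a (pr 𝒜 k b) := by
  have hhom : ∀ k : ℕ, (genPt S.m w a (pr 𝒜 k b)).IsHomogeneous (2 * k) := by
    intro k
    refine F.homog ?_
    have h1 := S.mp k _ (pr_mem 𝒜 k b) (S.p.prA_mem hb k)
    push_cast
    exact h1
  obtain ⟨s, hs⟩ := sum_pr 𝒜 b
  have h2 : ∀ i : ℕ, MvPolynomial.homogeneousComponent (2 * k) (genPt S.m w a (pr 𝒜 i b)) =
      if i = k then genPt S.m w a (pr 𝒜 k b) else 0 := by
    intro i
    rw [MvPolynomial.homogeneousComponent_of_mem (hhom i)]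
    by_cases hk : i = k
    · subst hk
      rw [if_pos rfl, if_pos rfl]
    · rw [if_neg (by omega), if_neg hk]
  conv_lhs => rw [hs]
  rw [map_sum, map_sum, sum_congr rfl fun i _ => h2 i, sum_ite_eq']
  split_ifs with h3
  · rfl
  · have h4 : pr 𝒜 k b = 0 := by
      conv_lhs => rw [hs]
      rw [map_sum]
      refine sum_eq_zero fun i hi => ?_
      rw [pr_of_mem_ne 𝒜 (pr_mem 𝒜 i b)]
      rintro rfl
      exact h3 hi
    rw [h4, map_zero]

/-- The image of the `+` side is graded. -/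
lemma Bw_graded (S : Ts C 𝒢m 𝒢p h) {w : R →ₐ[ℂ] ℂ} {d : ℕ} {a : Fin d → 𝒢m 0}
    (F : Fr S.m w d a) {f : MvPolynomial (Fin d) ℂ} (hf : f ∈ Bw S w a) (i : ℕ) :
    MvPolynomial.homogeneousComponent i f ∈ Bw S w a := by
  obtain ⟨r, rfl⟩ := hf
  change MvPolynomial.homogeneousComponent i (genPt S.m w a (S.p.lo r)) ∈ _
  rcases Nat.even_or_odd' i with ⟨k, hk | hk⟩
  · rw [hk, comp_genPt S F (S.p.lo_mem r)]
    exact genPt_mem_Bw S w a (S.p.prA_mem (S.p.lo_mem r) k)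
  · rw [hk, odd_comp_of_flip (flip_genPt S F (S.p.lo_mem r))]
    exact (Bw S w a).zero_mem

/-- The ring of even integral functions is graded. -/
lemma Sw_graded (S : Ts C 𝒢m 𝒢p h) {w : R →ₐ[ℂ] ℂ} {d : ℕ} {a : Fin d → 𝒢m 0}
    (F : Fr S.m w d a) {f : MvPolynomial (Fin d) ℂ} (hf : f ∈ Sw S w a) (i : ℕ) :
    MvPolynomial.homogeneousComponent i f ∈ Sw S w a := by
  rw [mem_Sw] at hf ⊢
  refine ⟨B5 (Bw S w a) (fun f hf i => Bw_graded S F hf i) hf.1 i, ?_⟩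
  rcases Nat.even_or_odd' i with ⟨k, hk | hk⟩
  · rw [hk, flip_homog (MvPolynomial.homogeneousComponent_isHomogeneous (2 * k) f), pow_mul,
      neg_one_sq, one_pow, one_mul]
  · rw [hk, odd_comp_of_flip hf.2, map_zero]

/-- The map from the `+` side to the ring of even integral functions. -/
noncomputable def phi (S : Ts C 𝒢m 𝒢p h) {w : R →ₐ[ℂ] ℂ} {d : ℕ} {a : Fin d → 𝒢m 0}
    (F : Fr S.m w d a) : R →ₐ[ℂ] Sw S w a :=
  ((genPt S.m w a).comp S.p.lo).codRestrict _ fun r => genPt_mem_Sw S F (S.p.lo_mem r)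

lemma phi_apply (S : Ts C 𝒢m 𝒢p h) {w : R →ₐ[ℂ] ℂ} {d : ℕ} {a : Fin d → 𝒢m 0}
    (F : Fr S.m w d a) (r : R) : (phi S F r : MvPolynomial (Fin d) ℂ) =
      genPt S.m w a (S.p.lo r) := rfl

/-- The polynomial ring is algebraic over the image of the `+` side. -/
lemma Bw_alg (S : Ts C 𝒢m 𝒢p h) {w : R →ₐ[ℂ] ℂ} {d : ℕ} {a : Fin d → 𝒢m 0}
    (F : Fr S.m w d a) (f : MvPolynomial (Fin d) ℂ) : IsAlgebraic (Bw S w a) f := by
  obtain ⟨r, rfl⟩ := F.surj f
  refine (S.alg F.lat (Bw S w a) ?_ fun b hb => genPt_mem_Bw S w a hb).2 (F.h_ne S) r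
  intro u hu
  rw [F.zero hu]
  exact (Bw S w a).algebraMap_mem (w u)

/-- The image of the `+` side is finitely generated. -/
lemma Bw_fg (S : Ts C 𝒢m 𝒢p h) (w : R →ₐ[ℂ] ℂ) {d : ℕ} (a : Fin d → 𝒢m 0) :
    (Bw S w a).FG := by
  have := C.fg
  rw [Subalgebra.fg_iff_finiteType]
  exact Algebra.FiniteType.of_surjective ((genPt S.m w a).comp S.p.lo).rangeRestrict
    ((genPt S.m w a).comp S.p.lo).rangeRestrict_surjective

/-- The image of the `+` side is normal. -/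
lemma Bw_normal [IsDomain R] [IsIntegrallyClosed R] (S : Ts C 𝒢m 𝒢p h) {w : R →ₐ[ℂ] ℂ} {d : ℕ}
    {a : Fin d → 𝒢m 0} (F : Fr S.m w d a) {z : R →ₐ[ℂ] ℂ} {d1 : ℕ} {b1 : Fin d1 → 𝒢p 0}
    (F1 : Fr S.p z d1 b1) : IsIntegrallyClosed (Bw S w a) := by
  have := lo_normal S.p
  let j : S.p.lo.range →ₐ[ℂ] Bw S w a := ((genPt S.m w a).comp S.p.lo.range.val).codRestrict _
    fun x => genPt_mem_Bw S w a (S.p.range_mem x.2)
  have hinj : Function.Injective j := by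
    rw [injective_iff_map_eq_zero]
    intro x hx
    exact Subtype.ext (S.symm.inj F1 F (S.p.range_mem x.2) (congrArg Subtype.val hx))
  have hsurj : Function.Surjective j := by
    rintro ⟨_, r, rfl⟩
    exact ⟨⟨S.p.lo r, r, rfl⟩, rfl⟩
  exact IsIntegrallyClosed.of_equiv (RingEquiv.ofBijective j ⟨hinj, hsurj⟩)

/-- Integral elements form a finite extension. -/
lemma finite_incl {P : Type} [CommRing P] [Algebra ℂ P] {A B : Subalgebra ℂ P} (hAB : A ≤ B)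
    (hfg : A.FG) (T : Finset P) (hT : ∀ f ∈ B, f ∈ Submodule.span A (T : Set P)) :
    (Subalgebra.inclusion hAB).toRingHom.Finite := by
  have : Algebra.FiniteType ℂ A := (Subalgebra.fg_iff_finiteType _).1 hfg
  have : IsNoetherianRing A := Algebra.FiniteType.isNoetherianRing ℂ _
  let _ : Algebra A B := (Subalgebra.inclusion hAB).toRingHom.toAlgebra
  have hN : IsNoetherian A (Submodule.span A (T : Set P)) :=
    isNoetherian_span_of_finite _ T.finite_toSet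
  let g : B →ₗ[A] Submodule.span A (T : Set P) :=
    { toFun := fun f => ⟨f, hT f f.2⟩
      map_add' := fun _ _ => rfl
      map_smul' := fun _ _ => rfl }
  have hg : Function.Injective g := by
    intro x y hxy
    have h1 : (g x : P) = g y := by rw [hxy]
    exact Subtype.ext h1
  have : IsNoetherian A B := isNoetherian_of_injective g hg
  exact (inferInstance : Module.Finite A B)

lemma Bw_le_Sw (S : Ts C 𝒢m 𝒢p h) {w : R →ₐ[ℂ] ℂ} {d : ℕ} {a : Fin d → 𝒢m 0}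
    (F : Fr S.m w d a) : Bw S w a ≤ Sw S w a := by
  rintro _ ⟨r, rfl⟩
  exact genPt_mem_Sw S F (S.p.lo_mem r)

/-- The ring of even integral functions is finite. -/
lemma phi_finite [IsDomain R] [IsIntegrallyClosed R] (S : Ts C 𝒢m 𝒢p h) {w : R →ₐ[ℂ] ℂ} {d : ℕ}
    {a : Fin d → 𝒢m 0} (F : Fr S.m w d a) {z : R →ₐ[ℂ] ℂ} {d1 : ℕ} {b1 : Fin d1 → 𝒢p 0}
    (F1 : Fr S.p z d1 b1) : (phi S F).toRingHom.Finite := by
  obtain ⟨T, hT⟩ := B6 (Bw S w a) (Bw_fg S w a) (Bw_normal S F F1) (Bw_alg S F)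
  have h1 := finite_incl (Bw_le_Sw S F) (Bw_fg S w a) T
    (fun f hf => hT f ((mem_Sw S).1 hf).1)
  have h2 : ((genPt S.m w a).comp S.p.lo).rangeRestrict.toRingHom.Finite :=
    RingHom.Finite.of_surjective _ ((genPt S.m w a).comp S.p.lo).rangeRestrict_surjective
  have h3 : (phi S F).toRingHom = (Subalgebra.inclusion (Bw_le_Sw S F)).toRingHom.comp
      ((genPt S.m w a).comp S.p.lo).rangeRestrict.toRingHom := by
    refine RingHom.ext fun r => Subtype.ext ?_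
    rfl
  rw [h3]
  exact h1.comp h2

/-- G9. If the `+` side has no nontrivial finite covering, it has no base points. -/
theorem gg_sc [IsDomain R] [IsIntegrallyClosed R] (S : Tj C 𝒢m 𝒢p h)
    (hunram : ∀ {w : R →ₐ[ℂ] ℂ} {d : ℕ}
      {a : Fin d → 𝒢m 0} (_ : Fr S.m w d a) (φ : R →ₐ[ℂ] Sw S.toTs w a)
      (_ : ∀ r, (φ r : MvPolynomial (Fin d) ℂ) = genPt S.m w a (S.p.lo r))
      (q : Sw S.toTs w a →ₐ[ℂ] ℂ) (_ : ¬ IsVertex 𝒜 (q.comp φ)) (δ : Sw S.toTs w a →ₗ[ℂ] ℂ)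
      (_ : IsDer q δ) (_ : ∀ r, δ (φ r) = 0), δ = 0)
    (hSC : SC S.p)
    {z : R →ₐ[ℂ] ℂ} (hz : ∀ r, z (S.p.lo r) = z r) (hzv : ¬ IsVertex 𝒜 z) :
    ∃ g ∈ 𝒜 1, g ∈ 𝒢p 0 ∧ z g ≠ 0 := by
  classical
  obtain ⟨d1, b1, F1⟩ := S.p.exists_fr hz hzv
  -- a point over it with `h` nonzero
  have hne1 : genPt S.p z b1 h ≠ 0 := by
    have h1 := F1.h_ne S.toTs.symm
    rw [map_neg, neg_ne_zero] at h1
    exact h1
  obtain ⟨c2, hc2⟩ : ∃ c : Fin d1 → ℂ, MvPolynomial.aeval c (genPt S.p z b1 h) ≠ 0 := by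
    by_contra hcon
    push Not at hcon
    apply hne1
    refine MvPolynomial.funext fun c => ?_
    rw [map_zero]
    exact hcon c
  set x1 : R →ₐ[ℂ] ℂ := (MvPolynomial.aeval c2).comp (genPt S.p z b1) with hx1
  have hx1h : x1 h ≠ 0 := hc2
  have hx1p : Lat 𝒢p x1 := Sd.lat_comp _ F1.lat
  have hx1m : Lat 𝒢m x1 := (S.lat ℂ x1).2 hx1p
  have hx1z : ∀ b ∈ 𝒢p 0, x1 b = z b := by
    intro b hb
    change MvPolynomial.aeval c2 (genPt S.p z b1 b) = z b
    rw [F1.zero hb, MvPolynomial.aeval_C]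
    rfl
  -- the point on the `-` side
  set w : R →ₐ[ℂ] ℂ := x1.comp S.m.lo with hw
  obtain ⟨k, hk, e, he, heG, hxe⟩ := S.um ℂ x1 hx1m hx1h
  obtain ⟨d, a, F⟩ := S.m.exists_fr (w := w) (fun r => by
    change x1 (S.m.lo (S.m.lo r)) = x1 (S.m.lo r)
    rw [S.m.lo_lo]) (not_vertex_of hk he (by
    change x1 (S.m.lo e) ≠ 0
    rw [S.m.lo_of heG]
    exact hxe))
  obtain ⟨c1, hc1⟩ := F.exists_spec hx1m (fun r hr => by
    change x1 r = x1 (S.m.lo r)
    rw [S.m.lo_of hr])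
  -- the covering
  obtain ⟨ℬi⟩ := Pool.Agent.Helper48.BG.B7 (Sw S.toTs w a)
    (fun f hf i => Sw_graded S.toTs F hf i)
    (fun f hf i => odd_comp_of_flip ((mem_Sw S.toTs).1 hf).2 i)
  have hsurj : Function.Surjective (phi S.toTs F) := by
    refine hSC (Sw S.toTs w a) (fun k : ℕ =>
      (MvPolynomial.homogeneousSubmodule (Fin d) ℂ (2 * k)).comap
        (Sw S.toTs w a).val.toLinearMap) (phi S.toTs F) ?_ ?_ (phi_finite S.toTs F F1) ?_
    · intro k a' ha'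
      change (genPt S.m w a (S.p.lo a')).IsHomogeneous (2 * k)
      refine F.homog ?_
      have h1 := S.mp k _ (S.p.lo_memA ha') (S.p.lo_mem a')
      push_cast
      exact h1
    · intro r
      constructor
      · intro h1
        exact S.toTs.symm.inj F1 F (S.p.lo_mem r) (congrArg Subtype.val h1)
      · intro h1
        apply Subtype.ext
        rw [phi_apply, h1, map_zero]
        rfl
    · intro q hq δ hδ h0
      exact hunram F (phi S.toTs F) (phi_apply S.toTs F) q hq δ hδ h0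
  obtain ⟨r, hr⟩ := hsurj ⟨genPt S.m w a h ^ 2, sq_mem_Sw S.toTs F⟩
  have hr' : genPt S.m w a (S.p.lo r) = genPt S.m w a h ^ 2 := congrArg Subtype.val hr
  refine ⟨pr 𝒜 1 (S.p.lo r), pr_mem 𝒜 1 _, S.p.prA_mem (S.p.lo_mem r) 1, ?_⟩
  have h1 := comp_genPt S.toTs F (S.p.lo_mem r) 1
  rw [hr', MvPolynomial.homogeneousComponent_of_mem (((h_homog S.toTs F).pow 2)),
    if_pos (by norm_num)] at h1
  rw [← hx1z _ (S.p.prA_mem (S.p.lo_mem r) 1)]
  have h2 : x1 (pr 𝒜 1 (S.p.lo r)) = x1 h ^ 2 := by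
    rw [hc1]
    change MvPolynomial.aeval c1 (genPt S.m w a (pr 𝒜 1 (S.p.lo r))) =
      (MvPolynomial.aeval c1 (genPt S.m w a h)) ^ 2
    rw [← h1, map_pow]
  rw [h2]
  exact pow_ne_zero 2 hx1h

end Pool.Agent.Helper56.BG
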